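import Pool.Agent.Work.MP_eb5f03_ct.Main
import Pool.Agent.Work.MP_eb5f03_co.Assembly
import Pool.Agent.Work.MP_eb5f03_co.B_KOH
import Pool.Agent.Work.MP_eb5f03_co.B_KPT
import Pool.Agent.Work.MP_eb5f03_co.B_KOM
import Pool.Agent.Work.MP_eb5f03_co.B_TOR
import Pool.Agent.Work.MP_eb5f03_co.B_ORT
import Pool.Agent.Work.MP_eb5f03_co.B_MIN
import Pool.Agent.Work.MP_eb5f03_co.B_RNK
import Pool.Agent.Work.MP_eb5f03_co.B_INJ
import Pool.Agent.Work.MP_eb5f03_co.B_LAT
import Pool.Agent.Work.MP_eb5f03_co.B_HES
import Pool.Agent.Work.MP_eb5f03_co.B_CAS
import Pool.Agent.Work.MP_eb5f03_co.B_BLD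

/-!
# Codimension two cycles and unramified cohomology of cubic fourfolds over finite fields

`X` is a smooth cubic fourfold over the field `F` with `p^r` elements, `p` odd, and `Y` its variety of
lines; the structure `Fourfold` lists the groups attached to them and the published theorems which are
used.  `A` is the Néron-Severi group of `Ȳ`, in which `CH²(X̄)` modulo torsion is embedded by the
correspondence given by the universal line, `X.phi` is the action of the Frobenius automorphism on it,
`X.im 1` the image of `CH²(X)`, `H3` the sum of the groups `H³_nr(F(X)/F, ℚ_l/ℤ_l(2))` for `l ≠ p` and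
`H2` the group `H³_nr(F(X)/F, ℤ/2)`.  The theorem: every class in `A` which is fixed by the Frobenius
automorphism has a multiple by a power of `p` in the image of `CH²(X)`, and `H3 = 0`, `H2 = 0`.

IDEA.  (1) The equation `f a` of the locus in the universal deformation of `X` where `a` stays a
divisor class has modulo `p`, after division of `a` by `p` modulo the Pluecker class, a linear term, or
a quadratic part of rank at least `19` (rank `19` for `p = 3`): this uses `H¹(Y, 𝒪) = 0`,
`dim H²(Y, 𝒪) = 1`, `H⁰(Y, Ω¹) = 0`, that `Φ : H³(X, Ω¹) → H²(Y, 𝒪)` is an isomorphism (Koszul complexes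
on the bundle of tangent lines of `X`, all characteristics), the infinitesimal Torelli theorem modulo `p`
and the transport to `k[t]/(t)³`.  So `f a` has a zero over a totally ramified extension of the
unramified field, with residue field `F_m`, and by Baire's theorem a zero `t` where only the rational
combinations of `a` and the Pluecker class lift.  (2) Over this field `K` the Galois group acts
trivially on the numerical lattice of the Kuznetsov component, hence on its stability conditions; a
class `v` over a generator of the Neron-Severi group modulo the Pluecker class can be chosen with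
`v²/2` odd, as the lattice `A₂` is anisotropic modulo `2` (for `l` odd: with `v²/2 + 2` prime to `l`);
the moduli space is defined over `K` with Euler characteristic `v²/2 + 2`.  (3) By Wittenberg's theorem
it has a point over an extension whose residue degree over `F_m` is prime to `l`, the Brauer
obstruction dies in a totally ramified extension, and specialisation and norms give the class over `F`.
-/

open Pool.CubicTate

theorem Pool.Agent.Results.MP_eb5f03_ag.UnramifiedVanishing.result (p : ℕ) [Fact p.Prime]
    (hp : p ≠ 2) (r : ℕ) (hr : 0 < r) (S : ProperSchemes p) (A H3 H2 : Type) [AddCommGroup A]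
    [AddCommGroup H3] [AddCommGroup H2] (X : Fourfold S r A H3 H2) :
    (∀ a : A, X.phi a = a → ∃ k : ℕ, (p ^ k) • a ∈ X.im 1) ∧
      (∀ x : H3, x = 0) ∧ ∀ x : H2, x = 0 :=
  assembly2 q_KOH q_KPT q_KOM q_TOR q_ORT q_MIN q_RNK q_INJ q_LAT q_HES q_CAS q_BLD main p hp S r hr
    A H3 H2 X
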